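import Mathlib
import Pool.Agent.H10.CedDefs
import Pool.Agent.H10.RPDefs
import Pool.Agent.H10.RP6Data

set_option autoImplicit false

namespace Pool.Agent.Results.MP_b4345b_gt.RP6
open Pool.Agent.H10.Ced Pool.Agent.H10.Proj

/-- a finite simplicial complex with at most 39 vertices whose realization is homeomorphic to
real projective 6-space -/
theorem result : ∃ K : Cx, IsCx K ∧ (∀ s ∈ K, ∀ v ∈ s, v < 39) ∧ Nonempty (real K ≃ₜ RP 6) :=
  Pool.Agent.H10.Flip.main 6 39 _ _ (by norm_num) Pool.Agent.H10.Flip.RP6Data.pf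
    Pool.Agent.H10.Flip.RP6Data.f0 Pool.Agent.H10.Flip.RP6Data.r0

end Pool.Agent.Results.MP_b4345b_gt.RP6
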